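import Mathlib

/-!
# Planarity as a sparse 2-basis of the cycle space (MacLane)

`SB G`: the cycle space of `G` over `F₂` is spanned by a finite family of elements such that every
edge is in the support of at most two of them.
-/

namespace Pool.Agent.H43.RCQ

open Finset

/-- elements of the cycle space of `G` over `F₂` -/
def IsCyc {V : Type} [Fintype V] (G : SimpleGraph V) (f : Sym2 V → ZMod 2) : Prop :=
  (∀ e, f e ≠ 0 → e ∈ G.edgeSet) ∧ ∀ v, ∑ w, f s(v, w) = 0

/-- sparse 2-basis -/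
def SB {V : Type} [Fintype V] (G : SimpleGraph V) : Prop :=
  ∃ (ι : Type) (_ : Fintype ι) (φ : ι → Sym2 V → ZMod 2), (∀ i, IsCyc G (φ i)) ∧
    (∀ z, IsCyc G z → ∃ c : ι → ZMod 2, ∀ e, z e = ∑ i, c i * φ i e) ∧
    ∀ e, Nat.card {i // φ i e ≠ 0} ≤ 2

/-- a minor model of `H` in `G` -/
structure MinorModel {V W : Type} (G : SimpleGraph V) (H : SimpleGraph W) where
  B : W → Set V
  disj : ∀ a b, a ≠ b → Disjoint (B a) (B b)
  conn : ∀ a, (G.induce (B a)).Connected
  adj : ∀ a b, H.Adj a b → ∃ x ∈ B a, ∃ y ∈ B b, G.Adj x y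

/-- faces of a 2-connected plane graph, in the form of a full 2-basis -/
structure Faces {V : Type} [Fintype V] (G : SimpleGraph V) where
  F : Type
  fin : Fintype F
  fe : F → Set (Sym2 V)
  sub : ∀ f, ∀ e ∈ fe f, e ∈ G.edgeSet
  even : ∀ f v, Even (Nat.card {w // s(v, w) ∈ fe f})
  two : ∀ e ∈ G.edgeSet, Nat.card {f // e ∈ fe f} = 2
  euler : Nat.card G.edgeSet + 2 = Fintype.card V + Nat.card F
  span : ∀ z, IsCyc G z → ∃ T : Set F, ∀ e, (z e ≠ 0 ↔ Odd (Nat.card {f // f ∈ T ∧ e ∈ fe f}))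

end Pool.Agent.H43.RCQ
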