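import Pool.Agent.H43.RCQ.Defs

/-! # Deletion of edges and minors -/

namespace Pool.Agent.H43.RCQ

open Finset

theorem zmod2_cases (a : ZMod 2) : a = 0 ∨ a = 1 := by
  revert a; decide

theorem zmod2_ne {a : ZMod 2} (h : a ≠ 0) : a = 1 := (zmod2_cases a).resolve_left h

theorem zmod2_add_eq_zero {a b : ZMod 2} (h : a + b = 0) : a = b := by
  revert a b; decide

theorem isCyc_add {V : Type} [Fintype V] {G : SimpleGraph V} {f g : Sym2 V → ZMod 2}
    (hf : IsCyc G f) (hg : IsCyc G g) : IsCyc G (f + g) := by
  refine ⟨fun e he => ?_, fun v => ?_⟩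
  · by_cases h : f e = 0
    · apply hg.1
      intro h'
      apply he
      simp [h, h']
    · exact hf.1 e h
  · simp only [Pi.add_apply, sum_add_distrib, hf.2 v, hg.2 v, add_zero]

theorem isCyc_zero {V : Type} [Fintype V] {G : SimpleGraph V} : IsCyc G (0 : Sym2 V → ZMod 2) :=
  ⟨fun e he => absurd rfl he, fun v => by simp⟩

theorem sb_del_one {V : Type} [Fintype V] {G G' : SimpleGraph V} (e₀ : Sym2 V)
    (h : ∀ e, e ∈ G'.edgeSet ↔ e ∈ G.edgeSet ∧ e ≠ e₀) (hG : SB G) : SB G' := by
  classical
  obtain ⟨ι, hι, φ, h1, h2, h3⟩ := hG
  have hsub : ∀ z, IsCyc G' z → IsCyc G z ∧ z e₀ = 0 := by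
    intro z hz
    refine ⟨⟨fun e he => ((h e).1 (hz.1 e he)).1, hz.2⟩, ?_⟩
    by_contra hne
    exact ((h e₀).1 (hz.1 e₀ hne)).2 rfl
  have hsup : ∀ z, IsCyc G z → z e₀ = 0 → IsCyc G' z := by
    intro z hz h0
    refine ⟨fun e he => (h e).2 ⟨hz.1 e he, ?_⟩, hz.2⟩
    rintro rfl
    exact he h0
  -- case 0
  by_cases hA : ∀ i, φ i e₀ = 0
  · refine ⟨ι, hι, φ, fun i => hsup _ (h1 i) (hA i), fun z hz => h2 z (hsub z hz).1, h3⟩
  push Not at hA
  obtain ⟨i, hi⟩ := hA
  by_cases hB : ∀ j, j ≠ i → φ j e₀ = 0
  · -- case 1
    refine ⟨ι, hι, fun j => if j = i then 0 else φ j, ?_, ?_, ?_⟩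
    · intro j
      by_cases hj : j = i
      · simp only [hj, if_true]
        exact isCyc_zero
      · simp only [hj, if_false]
        exact hsup _ (h1 j) (hB j hj)
    · intro z hz
      obtain ⟨hz1, hz0⟩ := hsub z hz
      obtain ⟨c, hc⟩ := h2 z hz1
      have hci : c i = 0 := by
        have h4 := hc e₀
        rw [hz0, Finset.sum_eq_single i] at h4
        · rw [zmod2_ne hi, mul_one] at h4
          exact h4.symm
        · intro j _ hj
          rw [hB j hj, mul_zero]
        · intro h5
          exact absurd (mem_univ i) h5
      refine ⟨c, fun e => ?_⟩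
      rw [hc e]
      refine Finset.sum_congr rfl fun j _ => ?_
      by_cases hj : j = i
      · simp [hj, hci]
      · simp [hj]
    · intro e
      refine le_trans ?_ (h3 e)
      refine Nat.card_le_card_of_injective
        (fun j : {j // (if j = i then (0 : Sym2 V → ZMod 2) else φ j) e ≠ 0} =>
          (⟨j.1, ?_⟩ : {j // φ j e ≠ 0})) ?_
      · have := j.2
        by_cases hj : j.1 = i
        · simp [hj] at this
        · simpa [hj] using this
      · intro a b hab
        simpa [Subtype.ext_iff] using hab
  · -- case 2
    push Not at hB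
    obtain ⟨j, hji, hj⟩ := hB
    have hother : ∀ k, k ≠ i → k ≠ j → φ k e₀ = 0 := by
      intro k hki hkj
      by_contra hk
      have h4 : 3 ≤ Nat.card {i // φ i e₀ ≠ 0} := by
        have h5 : ({i, j, k} : Finset ι).card = 3 := by
          rw [Finset.card_eq_three]
          exact ⟨i, j, k, fun h => hji h.symm, fun h => hki h.symm, fun h => hkj h.symm, rfl⟩
        rw [Nat.card_eq_fintype_card, Fintype.card_subtype]
        rw [← h5]
        apply Finset.card_le_card
        intro x hx
        simp only [mem_insert, mem_singleton] at hx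
        simp only [mem_filter, mem_univ, true_and]
        rcases hx with rfl | rfl | rfl
        · exact hi
        · exact hj
        · exact hk
      have := h3 e₀
      omega
    refine ⟨ι, hι, fun k => if k = i then φ i + φ j else if k = j then 0 else φ k, ?_, ?_, ?_⟩
    · intro k
      by_cases hki : k = i
      · simp only [hki, if_true]
        refine hsup _ (isCyc_add (h1 i) (h1 j)) ?_
        rw [Pi.add_apply, zmod2_ne hi, zmod2_ne hj]
        decide
      · by_cases hkj : k = j
        · simp only [hkj, hji, if_false, if_true]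
          exact isCyc_zero
        · simp only [hki, hkj, if_false]
          exact hsup _ (h1 k) (hother k hki hkj)
    · intro z hz
      obtain ⟨hz1, hz0⟩ := hsub z hz
      obtain ⟨c, hc⟩ := h2 z hz1
      have key : ∀ g : ι → ZMod 2, ∑ k, g k = g i + g j + ∑ k ∈ (univ.erase i).erase j, g k := by
        intro g
        rw [← Finset.add_sum_erase univ g (mem_univ i),
          ← Finset.add_sum_erase (univ.erase i) g (mem_erase.2 ⟨hji, mem_univ j⟩), add_assoc]
      have hcij : c i = c j := by
        have h4 := hc e₀
        rw [hz0, key, Finset.sum_eq_zero (s := (univ.erase i).erase j), zmod2_ne hi, zmod2_ne hj,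
          mul_one, mul_one, add_zero] at h4
        · exact zmod2_add_eq_zero h4.symm
        · intro k hk
          rw [mem_erase, mem_erase] at hk
          rw [hother k hk.2.1 hk.1, mul_zero]
      refine ⟨c, fun e => ?_⟩
      rw [hc e, key, key (fun k => c k * (if k = i then φ i + φ j else if k = j then 0 else φ k) e)]
      have h5 : ∑ k ∈ (univ.erase i).erase j, c k * φ k e = ∑ k ∈ (univ.erase i).erase j,
          c k * (if k = i then φ i + φ j else if k = j then 0 else φ k) e := by
        refine Finset.sum_congr rfl fun k hk => ?_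
        rw [mem_erase, mem_erase] at hk
        rw [if_neg hk.2.1, if_neg hk.1]
      rw [h5]
      simp only [if_true, hji, if_false, Pi.add_apply, Pi.zero_apply, mul_zero, add_zero, hcij,
        mul_add]
    · intro e
      refine le_trans ?_ (h3 e)
      -- injection
      by_cases hie : φ i e = 0
      · refine Nat.card_le_card_of_injective
          (fun k : {k // (if k = i then φ i + φ j else if k = j then 0 else φ k :
            Sym2 V → ZMod 2) e ≠ 0} =>
            (⟨if k.1 = i then j else k.1, ?_⟩ : {j // φ j e ≠ 0})) ?_
        · have := k.2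
          by_cases hki : k.1 = i
          · simpa [hki, hie] using this
          · by_cases hkj : k.1 = j
            · simp [hkj, hji] at this
            · simpa [hki, hkj] using this
        · intro a b hab
          have ha := a.2
          have hb := b.2
          have hab' : (if a.1 = i then j else a.1) = (if b.1 = i then j else b.1) := by
            simpa [Subtype.ext_iff] using hab
          apply Subtype.ext
          by_cases hai : a.1 = i
          · by_cases hbi : b.1 = i
            · rw [hai, hbi]
            · rw [if_pos hai, if_neg hbi] at hab'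
              exfalso
              rw [← hab'] at hb
              simp [hji] at hb
          · by_cases hbi : b.1 = i
            · rw [if_neg hai, if_pos hbi] at hab'
              exfalso
              rw [hab'] at ha
              simp [hji] at ha
            · rw [if_neg hai, if_neg hbi] at hab'
              exact hab'
      · refine Nat.card_le_card_of_injective
          (fun k : {k // (if k = i then φ i + φ j else if k = j then 0 else φ k :
            Sym2 V → ZMod 2) e ≠ 0} =>
            (⟨k.1, ?_⟩ : {j // φ j e ≠ 0})) ?_
        · have := k.2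
          by_cases hki : k.1 = i
          · rw [hki]
            exact hie
          · by_cases hkj : k.1 = j
            · simp [hkj, hji] at this
            · simpa [hki, hkj] using this
        · intro a b hab
          simpa [Subtype.ext_iff] using hab

theorem sb_del {V : Type} [Fintype V] (G : SimpleGraph V) (hG : SB G) (G' : SimpleGraph V)
    (h : G' ≤ G) : SB G' := by
  obtain ⟨n, hn⟩ : ∃ n, (G.edgeSet \ G'.edgeSet).ncard = n := ⟨_, rfl⟩
  induction n generalizing G with
  | zero =>
    have h1 : G ≤ G' := by
      rw [← SimpleGraph.edgeSet_subset_edgeSet]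
      rw [Set.ncard_eq_zero (Set.toFinite _), Set.sdiff_eq_empty] at hn
      exact hn
    rw [le_antisymm h h1]
    exact hG
  | succ n ih =>
    have h0 : (G.edgeSet \ G'.edgeSet).Nonempty := by
      rw [← Set.ncard_pos (Set.toFinite _)]; omega
    obtain ⟨e, he⟩ := h0
    have hE : ∀ x, x ∈ (G.deleteEdges {e}).edgeSet ↔ x ∈ G.edgeSet ∧ x ≠ e := by
      intro x
      rw [SimpleGraph.edgeSet_deleteEdges]
      simp
    refine ih (G.deleteEdges {e}) (sb_del_one e hE hG) ?_ ?_
    · rw [← SimpleGraph.edgeSet_subset_edgeSet]
      intro x hx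
      rw [hE]
      refine ⟨SimpleGraph.edgeSet_subset_edgeSet.2 h hx, ?_⟩
      rintro rfl
      exact he.2 hx
    · have h2 : (G.deleteEdges {e}).edgeSet \ G'.edgeSet = (G.edgeSet \ G'.edgeSet) \ {e} := by
        ext x
        simp only [Set.mem_sdiff, hE, Set.mem_singleton_iff]
        tauto
      rw [h2, Set.ncard_sdiff_singleton_of_mem he, hn]
      rfl

end Pool.Agent.H43.RCQ
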