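import Pool.Agent.H43.RCQ.Walk

/-! # `SB` is minor closed -/

namespace Pool.Agent.H43.RCQ

open Finset

/-- sum over all ordered pairs inside a set of a symmetric function vanishing on the diagonal -/
theorem sum_sym_zero {V : Type} [Fintype V] [DecidableEq V] (f : Sym2 V → ZMod 2)
    (hd : ∀ x, f s(x, x) = 0) (s : Finset V) : ∑ x ∈ s, ∑ y ∈ s, f s(x, y) = 0 := by
  induction s using Finset.induction_on with
  | empty => simp
  | insert a s ha ih =>
    rw [Finset.sum_insert ha, Finset.sum_insert ha, hd a, zero_add]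
    have h1 : ∀ x ∈ s, ∑ y ∈ insert a s, f s(x, y) = f s(a, x) + ∑ y ∈ s, f s(x, y) := by
      intro x _
      rw [Finset.sum_insert ha, Sym2.eq_swap]
    rw [Finset.sum_congr rfl h1, Finset.sum_add_distrib, ih, add_zero]
    have : ∀ a : ZMod 2, a + a = 0 := by decide
    exact this _

theorem isCyc_diag {V : Type} [Fintype V] {G : SimpleGraph V} {f : Sym2 V → ZMod 2}
    (hf : IsCyc G f) (x : V) : f s(x, x) = 0 := by
  by_contra h
  have := hf.1 _ h
  rw [SimpleGraph.mem_edgeSet] at this
  exact G.loopless.irrefl x this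

theorem sb_minor {V W : Type} [Fintype V] [Fintype W] {G : SimpleGraph V} {H : SimpleGraph W}
    (M : MinorModel G H) (hG : SB G) : SB H := by
  classical
  -- choose edges
  have hpick : ∀ e : Sym2 W, ∃ g : Sym2 V, e ∈ H.edgeSet →
      g ∈ G.edgeSet ∧ ∀ a ∈ e, ∃ x ∈ g, x ∈ M.B a := by
    intro e
    by_cases he : e ∈ H.edgeSet
    · induction e using Sym2.ind with
      | _ a b =>
        obtain ⟨x, hx, y, hy, hxy⟩ := M.adj a b he
        refine ⟨s(x, y), fun _ => ⟨hxy, fun c hc => ?_⟩⟩
        rw [Sym2.mem_iff] at hc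
        rcases hc with rfl | rfl
        · exact ⟨x, Sym2.mem_mk_left _ _, hx⟩
        · exact ⟨y, Sym2.mem_mk_right _ _, hy⟩
    · induction e using Sym2.ind with
      | _ a b =>
        obtain ⟨x⟩ := (M.conn a).nonempty
        exact ⟨s(x.1, x.1), fun h => absurd h he⟩
  choose pick hp using hpick
  have hp2 : ∀ a b, H.Adj a b → ∃ x ∈ M.B a, ∃ y ∈ M.B b, pick s(a, b) = s(x, y) ∧ G.Adj x y := by
    intro a b hab
    obtain ⟨h1, h2⟩ := hp s(a, b) hab
    obtain ⟨x, hx, hxB⟩ := h2 a (Sym2.mem_mk_left _ _)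
    obtain ⟨y, hy, hyB⟩ := h2 b (Sym2.mem_mk_right _ _)
    have hne : x ≠ y := by
      rintro rfl
      exact Set.disjoint_left.1 (M.disj a b hab.ne) hxB hyB
    have h3 : pick s(a, b) = s(x, y) := ((Sym2.mem_and_mem_iff hne).1 ⟨hx, hy⟩)
    refine ⟨x, hxB, y, hyB, h3, ?_⟩
    rw [h3] at h1
    exact h1
  have huniq : ∀ {a b x}, x ∈ M.B a → x ∈ M.B b → a = b := by
    intro a b x h1 h2
    by_contra h
    exact Set.disjoint_left.1 (M.disj a b h) h1 h2
  -- the subgraph
  let G' : SimpleGraph V := SimpleGraph.fromRel fun x y => G.Adj x y ∧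
    ((∃ a, x ∈ M.B a ∧ y ∈ M.B a) ∨ ∃ e ∈ H.edgeSet, pick e = s(x, y))
  have hG'adj : ∀ x y, G'.Adj x y ↔ G.Adj x y ∧
      ((∃ a, x ∈ M.B a ∧ y ∈ M.B a) ∨ ∃ e ∈ H.edgeSet, pick e = s(x, y)) := by
    intro x y
    rw [SimpleGraph.fromRel_adj]
    constructor
    · rintro ⟨-, h | ⟨h1, h2⟩⟩
      · exact h
      · refine ⟨h1.symm, ?_⟩
        rcases h2 with ⟨a, h3, h4⟩ | ⟨e, he, h5⟩
        · exact Or.inl ⟨a, h4, h3⟩
        · exact Or.inr ⟨e, he, h5.trans Sym2.eq_swap⟩
    · intro h
      exact ⟨h.1.ne, Or.inl h⟩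
  have hle : G' ≤ G := fun x y h => ((hG'adj x y).1 h).1
  obtain ⟨ι, hι, φ, h1, h2, h3⟩ := sb_del G hG G' hle
  let res : (Sym2 V → ZMod 2) → (Sym2 W → ZMod 2) := fun f e => if e ∈ H.edgeSet then f (pick e) else 0
  -- crossing sums
  have hcross : ∀ (f : Sym2 V → ZMod 2), (∀ e, f e ≠ 0 → e ∈ G'.edgeSet) → ∀ a,
      ∑ x ∈ univ.filter (· ∈ M.B a), ∑ y, f s(x, y) = ∑ b, res f s(a, b) := by
    intro f hf a
    have hd : ∀ x, f s(x, x) = 0 := by
      intro x
      by_contra h
      exact G'.loopless.irrefl x (hf _ h)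
    have e1 : ∀ x, ∑ y, f s(x, y) = ∑ y ∈ univ.filter (· ∈ M.B a), f s(x, y) +
        ∑ y ∈ univ.filter (fun y => ¬ y ∈ M.B a), f s(x, y) := by
      intro x
      rw [Finset.sum_filter_add_sum_filter_not]
    rw [Finset.sum_congr rfl fun x _ => e1 x, Finset.sum_add_distrib, sum_sym_zero f hd, zero_add]
    -- now a bijection
    have e2 : ∑ b, res f s(a, b) = ∑ b ∈ univ.filter (fun b => H.Adj a b), f (pick s(a, b)) := by
      rw [Finset.sum_filter]
      refine Finset.sum_congr rfl fun b _ => ?_
      simp only [res, SimpleGraph.mem_edgeSet]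
    rw [e2, ← Finset.sum_product']
    symm
    -- choose endpoints
    have hch : ∀ b, ∃ q : V × V, H.Adj a b → q.1 ∈ M.B a ∧ q.2 ∈ M.B b ∧ pick s(a, b) = s(q.1, q.2) := by
      intro b
      by_cases h : H.Adj a b
      · obtain ⟨x, hx, y, hy, hxy, -⟩ := hp2 a b h
        exact ⟨(x, y), fun _ => ⟨hx, hy, hxy⟩⟩
      · obtain ⟨x⟩ := (M.conn a).nonempty
        exact ⟨(x.1, x.1), fun h' => absurd h' h⟩
    choose Q hQ using hch
    refine Finset.sum_bij_ne_zero (fun b _ _ => Q b) ?_ ?_ ?_ ?_
    · intro b hb _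
      rw [mem_filter] at hb
      obtain ⟨q1, q2, q3⟩ := hQ b hb.2
      rw [mem_product, mem_filter, mem_filter]
      refine ⟨⟨mem_univ _, q1⟩, mem_univ _, fun h => hb.2.ne (huniq h q2)⟩
    · intro b hb _ b' hb' _ hbb
      rw [mem_filter] at hb hb'
      obtain ⟨-, q2, -⟩ := hQ b hb.2
      obtain ⟨-, q2', -⟩ := hQ b' hb'.2
      rw [hbb] at q2
      exact huniq q2 q2'
    · rintro ⟨x, y⟩ hxy hne
      rw [mem_product, mem_filter, mem_filter] at hxy
      obtain ⟨⟨-, hx⟩, -, hy⟩ := hxy
      have hadj := hf _ hne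
      rw [SimpleGraph.mem_edgeSet, hG'adj] at hadj
      rcases hadj.2 with ⟨a', h4, h5⟩ | ⟨e, he, h5⟩
      · exact absurd (huniq h4 hx ▸ h5) hy
      · induction e using Sym2.ind with
        | _ c d =>
          obtain ⟨x', hx', y', hy', hpk, -⟩ := hp2 c d he
          rw [hpk, Sym2.eq_iff] at h5
          rcases h5 with ⟨h6, h7⟩ | ⟨h6, h7⟩
          · dsimp only at h6 h7
            subst h6; subst h7
            have hca : c = a := huniq hx' hx
            subst hca
            obtain ⟨q1, q2, q3⟩ := hQ d he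
            rw [hpk, Sym2.eq_iff] at q3
            have hq : Q d = (x', y') := by
              rcases q3 with ⟨q4, q5⟩ | ⟨q4, q5⟩
              · exact Prod.ext q4.symm q5.symm
              · rw [← q4] at q2
                exact absurd (huniq q2 hx') he.ne'
            refine ⟨d, mem_filter.2 ⟨mem_univ _, he⟩, ?_, hq⟩
            rw [hpk]
            exact hne
          · dsimp only at h6 h7
            subst h6; subst h7
            have hca : d = a := huniq hy' hx
            subst hca
            have he' : H.Adj d c := he.symm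
            obtain ⟨q1, q2, q3⟩ := hQ c he'
            rw [Sym2.eq_swap (a := d), hpk, Sym2.eq_iff] at q3
            have hq : Q c = (y', x') := by
              rcases q3 with ⟨q4, q5⟩ | ⟨q4, q5⟩
              · rw [← q5] at q2
                exact absurd (huniq q2 hy') he.ne
              · exact Prod.ext q5.symm q4.symm
            refine ⟨c, mem_filter.2 ⟨mem_univ _, he'⟩, ?_, hq⟩
            rw [Sym2.eq_swap (a := d), hpk]
            rw [Sym2.eq_swap]
            exact hne
    · intro b hb _
      rw [mem_filter] at hb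
      obtain ⟨q1, q2, q3⟩ := hQ b hb.2
      rw [q3]
  refine ⟨ι, hι, fun i => res (φ i), fun i => ⟨fun e he => ?_, fun a => ?_⟩, ?_, fun e => ?_⟩
  · by_contra h
    exact he (if_neg h)
  · rw [← hcross (φ i) (h1 i).1 a]
    exact Finset.sum_eq_zero fun x _ => (h1 i).2 x
  · intro z hz
    -- lift
    let z0 : Sym2 V → ZMod 2 := fun g => if ∃ e ∈ H.edgeSet, pick e = g ∧ z e ≠ 0 then 1 else 0
    have hinj : ∀ e ∈ H.edgeSet, ∀ e' ∈ H.edgeSet, pick e = pick e' → e = e' := by
      intro e he e' he' h
      induction e using Sym2.ind with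
      | _ a b =>
      induction e' using Sym2.ind with
      | _ c d =>
        obtain ⟨x, hx, y, hy, hxy, -⟩ := hp2 a b he
        obtain ⟨x', hx', y', hy', hxy', -⟩ := hp2 c d he'
        rw [hxy, hxy', Sym2.eq_iff] at h
        rcases h with ⟨rfl, rfl⟩ | ⟨rfl, rfl⟩
        · rw [huniq hx hx', huniq hy hy']
        · rw [huniq hx hy', huniq hy hx', Sym2.eq_swap]
    have hz0 : ∀ e ∈ H.edgeSet, z0 (pick e) = z e := by
      intro e he
      by_cases h : z e = 0
      · rw [h]
        refine if_neg ?_
        rintro ⟨e', he', h4, h5⟩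
        rw [hinj e' he' e he h4] at h5
        exact h5 h
      · rw [zmod2_ne h]
        exact if_pos ⟨e, he, rfl, h⟩
    have hz0G : ∀ g, z0 g ≠ 0 → ∃ e ∈ H.edgeSet, pick e = g := by
      intro g hg
      by_contra h
      apply hg
      refine if_neg ?_
      rintro ⟨e, he, h4, -⟩
      exact h ⟨e, he, h4⟩
    have hz0G' : ∀ g, z0 g ≠ 0 → g ∈ G'.edgeSet := by
      intro g hg
      obtain ⟨e, he, rfl⟩ := hz0G g hg
      have h4 := (hp e he).1
      generalize hge : pick e = g at h4
      induction g using Sym2.ind with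
      | _ x y =>
        rw [SimpleGraph.mem_edgeSet, hG'adj]
        exact ⟨h4, Or.inr ⟨e, he, hge⟩⟩
    have hresz0 : ∀ e, res z0 e = z e := by
      intro e
      by_cases he : e ∈ H.edgeSet
      · simp only [res, he, if_true]
        exact hz0 e he
      · simp only [res, he, if_false]
        by_contra h
        exact he (hz.1 e (fun h' => h h'.symm))
    have hbd : ∀ a, ∑ x ∈ univ.filter (· ∈ M.B a), ∑ y, z0 s(x, y) = 0 := by
      intro a
      rw [hcross z0 hz0G' a]
      rw [← hz.2 a]
      exact Finset.sum_congr rfl fun b _ => hresz0 _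
    -- inner functions
    have hin : ∀ a, ∃ f : Sym2 V → ZMod 2, (∀ e, f e ≠ 0 → e ∈ G.edgeSet ∧ ∀ x ∈ e, x ∈ M.B a) ∧
        ∀ x, ∑ w, f s(x, w) = if x ∈ M.B a then ∑ w, z0 s(x, w) else 0 := by
      intro a
      refine exists_bd_conn (M.conn a) _ (fun x hx => if_neg hx) ?_
      have h4 := hbd a
      rw [Finset.sum_filter] at h4
      exact h4
    choose fa hfa1 hfa2 using hin
    let zh : Sym2 V → ZMod 2 := fun e => z0 e + ∑ a, fa a e
    have hzh : IsCyc G' zh := by
      refine ⟨fun e he => ?_, fun v => ?_⟩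
      · by_cases h0 : z0 e = 0
        · have h4 : ∑ a, fa a e ≠ 0 := by
            intro h
            apply he
            simp only [zh, h0, h, add_zero]
          obtain ⟨a, -, ha⟩ := Finset.exists_ne_zero_of_sum_ne_zero h4
          obtain ⟨h5, h6⟩ := hfa1 a e ha
          induction e using Sym2.ind with
          | _ x y =>
            rw [SimpleGraph.mem_edgeSet, hG'adj]
            exact ⟨h5, Or.inl ⟨a, h6 x (Sym2.mem_mk_left _ _), h6 y (Sym2.mem_mk_right _ _)⟩⟩
        · exact hz0G' e h0
      · simp only [zh, Finset.sum_add_distrib]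
        rw [Finset.sum_comm]
        simp only [hfa2]
        by_cases hv : ∃ a, v ∈ M.B a
        · obtain ⟨a, ha⟩ := hv
          rw [Finset.sum_eq_single a]
          · rw [if_pos ha]
            have : ∀ a : ZMod 2, a + a = 0 := by decide
            exact this _
          · intro b _ hb
            rw [if_neg]
            intro h
            exact hb (huniq h ha)
          · intro h; exact absurd (mem_univ a) h
        · rw [Finset.sum_eq_zero (s := (univ : Finset W)), add_zero]
          · refine Finset.sum_eq_zero fun w _ => ?_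
            by_contra h
            obtain ⟨e, he, h4⟩ := hz0G _ h
            induction e using Sym2.ind with
            | _ c d =>
              obtain ⟨x, hx, y, hy, hxy, -⟩ := hp2 c d he
              rw [hxy, Sym2.eq_iff] at h4
              rcases h4 with ⟨rfl, rfl⟩ | ⟨rfl, rfl⟩
              · exact hv ⟨c, hx⟩
              · exact hv ⟨d, hy⟩
          · intro a _
            rw [if_neg]
            intro h
            exact hv ⟨a, h⟩
    obtain ⟨c, hc⟩ := h2 zh hzh
    refine ⟨c, fun e => ?_⟩
    by_cases he : e ∈ H.edgeSet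
    · have h4 := hc (pick e)
      have h5 : zh (pick e) = z e := by
        simp only [zh, hz0 e he]
        rw [Finset.sum_eq_zero, add_zero]
        intro a _
        by_contra h
        have h6 := (hfa1 a _ h).2
        induction e using Sym2.ind with
        | _ x y =>
          obtain ⟨x', hx, y', hy, hxy, -⟩ := hp2 x y he
          rw [hxy] at h6
          have h7 := huniq (h6 x' (Sym2.mem_mk_left _ _)) hx
          have h8 := huniq (h6 y' (Sym2.mem_mk_right _ _)) hy
          exact he.ne (h7.symm.trans h8)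
      rw [← h5, h4]
      refine Finset.sum_congr rfl fun i _ => ?_
      simp only [res, he, if_true]
    · simp only [res, he, if_false, mul_zero, Finset.sum_const_zero]
      by_contra h
      exact he (hz.1 e h)
  · by_cases he : e ∈ H.edgeSet
    · refine le_trans ?_ (h3 (pick e))
      refine le_of_eq (Nat.card_congr (Equiv.subtypeEquivRight fun i => ?_))
      simp only [res, he, if_true]
    · have : IsEmpty {i // res (φ i) e ≠ 0} := by
        refine ⟨fun i => i.2 ?_⟩
        simp only [res, he, if_false]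
      rw [Nat.card_of_isEmpty]
      omega

end Pool.Agent.H43.RCQ
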