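import Pool.Agent.H43.RCQ.Del

/-! # Boundaries -/

namespace Pool.Agent.H43.RCQ

open Finset

theorem bd_single {V : Type} [Fintype V] [DecidableEq V] {u v : V} (h : u ≠ v) (x : V) :
    ∑ w, (if s(x, w) = s(u, v) then (1 : ZMod 2) else 0) =
      (if x = u then 1 else 0) + (if x = v then 1 else 0) := by
  by_cases h1 : x = u
  · subst h1
    rw [if_pos rfl, if_neg h, add_zero, Finset.sum_eq_single v]
    · rw [if_pos rfl]
    · intro b _ hb
      rw [if_neg]
      intro h2
      rw [Sym2.eq_iff] at h2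
      rcases h2 with ⟨_, h3⟩ | ⟨h3, _⟩
      · exact hb h3
      · exact h h3
    · intro h2; exact absurd (mem_univ v) h2
  · by_cases h2 : x = v
    · subst h2
      rw [if_neg h1, if_pos rfl, zero_add, Finset.sum_eq_single u]
      · rw [if_pos Sym2.eq_swap]
      · intro b _ hb
        rw [if_neg]
        intro h2
        rw [Sym2.eq_iff] at h2
        rcases h2 with ⟨h3, _⟩ | ⟨_, h3⟩
        · exact h1 h3
        · exact hb h3
      · intro h2; exact absurd (mem_univ u) h2
    · rw [if_neg h1, if_neg h2, add_zero]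
      refine Finset.sum_eq_zero fun b _ => ?_
      rw [if_neg]
      intro h3
      rw [Sym2.eq_iff] at h3
      rcases h3 with ⟨h4, _⟩ | ⟨h4, _⟩
      · exact h1 h4
      · exact h2 h4

theorem exists_bd_walk {V : Type} [Fintype V] [DecidableEq V] {G : SimpleGraph V} {u v : V}
    (p : G.Walk u v) : ∃ f : Sym2 V → ZMod 2, (∀ e, f e ≠ 0 → e ∈ p.edges) ∧
      ∀ x, ∑ w, f s(x, w) = (if x = u then 1 else 0) + (if x = v then 1 else 0) := by
  induction p with
  | nil =>
    rename_i u
    refine ⟨0, fun e he => absurd rfl he, fun x => ?_⟩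
    by_cases h : x = u
    · simp only [h, if_true, Pi.zero_apply, Finset.sum_const_zero]
      decide
    · simp [h]
  | cons h p ih =>
    rename_i u w v
    obtain ⟨f, hf1, hf2⟩ := ih
    refine ⟨(fun e => if e = s(u, w) then 1 else 0) + f, fun e he => ?_, fun x => ?_⟩
    · rw [SimpleGraph.Walk.edges_cons, List.mem_cons]
      by_cases h1 : e = s(u, w)
      · exact Or.inl h1
      · right
        apply hf1
        simpa [h1] using he
    · simp only [Pi.add_apply, sum_add_distrib]
      rw [bd_single h.ne x, hf2 x]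
      have : ∀ a b c : ZMod 2, a + b + (b + c) = a + c := by decide
      exact this _ _ _

/-- every even vector on a set inducing a connected graph is a boundary -/
theorem exists_bd_conn {V : Type} [Fintype V] {G : SimpleGraph V} {B : Set V}
    (hB : (G.induce B).Connected) (g : V → ZMod 2) (hg : ∀ x, x ∉ B → g x = 0)
    (hs : ∑ x, g x = 0) : ∃ f : Sym2 V → ZMod 2,
      (∀ e, f e ≠ 0 → e ∈ G.edgeSet ∧ ∀ x ∈ e, x ∈ B) ∧ ∀ x, ∑ w, f s(x, w) = g x := by
  classical
  obtain ⟨r⟩ := hB.nonempty
  have hex : ∀ v : V, ∃ f : Sym2 V → ZMod 2, (∀ e, f e ≠ 0 → e ∈ G.edgeSet ∧ ∀ x ∈ e, x ∈ B) ∧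
      ∀ x, ∑ w, f s(x, w) = g v * ((if x = v then 1 else 0) + (if x = r.1 then 1 else 0)) := by
    intro v
    by_cases hv : v ∈ B
    · obtain ⟨p⟩ := hB.preconnected ⟨v, hv⟩ r
      obtain ⟨f, hf1, hf2⟩ := exists_bd_walk (p.map (SimpleGraph.Embedding.induce B).toHom)
      refine ⟨fun e => g v * f e, fun e he => ?_, fun x => ?_⟩
      · have h1 : f e ≠ 0 := fun h => he (by simp [h])
        have h2 := hf1 e h1
        refine ⟨SimpleGraph.Walk.edges_subset_edgeSet _ h2, ?_⟩
        rw [SimpleGraph.Walk.edges_map, List.mem_map] at h2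
        obtain ⟨e', -, rfl⟩ := h2
        intro x hx
        rw [Sym2.mem_map] at hx
        obtain ⟨y, -, rfl⟩ := hx
        exact y.2
      · rw [← Finset.mul_sum, hf2 x]
        rfl
    · refine ⟨0, fun e he => absurd rfl he, fun x => ?_⟩
      rw [hg v hv]
      simp
  choose F hF1 hF2 using hex
  refine ⟨fun e => ∑ v, F v e, fun e he => ?_, fun x => ?_⟩
  · obtain ⟨v, -, hv⟩ := Finset.exists_ne_zero_of_sum_ne_zero he
    exact hF1 v e hv
  · rw [Finset.sum_comm]
    simp only [hF2, mul_add]
    rw [Finset.sum_add_distrib, ← Finset.sum_mul, hs, zero_mul, add_zero]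
    simp

end Pool.Agent.H43.RCQ
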